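import Pool.Agent.Lib.MP_23c930_nt.Data

set_option autoImplicit false

namespace Pool.Agent.Results.MP_23c930_nt.CoveredBlock

/-- There are `n ≥ 1` (in fact `n = 10000` works, so one can take `n ≤ 10000`) and `m` such that
each of the `n` consecutive integers `m + 1, …, m + n` is divisible by two distinct primes less
than `n` or by the square of a prime less than `n / 2`. -/
theorem result : ∃ n m : ℕ, 1 ≤ n ∧ n ≤ 10000 ∧ ∀ i : ℕ, 1 ≤ i → i ≤ n →
    (∃ p q : ℕ, p.Prime ∧ q.Prime ∧ p ≠ q ∧ p < n ∧ q < n ∧ p * q ∣ m + i) ∨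
    (∃ p : ℕ, p.Prime ∧ 2 * p < n ∧ p ^ 2 ∣ m + i) :=
  ⟨10000, Pool.Agent.Lib.MP_23c930_nt.mVal, by norm_num, le_refl _, fun i h1 h2 =>
    Pool.Agent.Lib.MP_23c930_nt.all_cov i h1 h2⟩

end Pool.Agent.Results.MP_23c930_nt.CoveredBlock
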